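import Mathlib
import Pool.Agent.R881.TChar

/-!
MP_24a371_gt, Q1 (negative answer): `T`-characterizedness is not transitive, even for dually
embedded subgroups.
-/

open Filter Topology
open Pool.Agent.R881.TChar

namespace Pool.Agent.Results.MP_24a371_gt.NotTransitive

/-- `H` is dually embedded in `Y`: every character of `H` extends to a character of `Y`. -/
def DuallyEmbedded {Y : Type*} [AddCommGroup Y] [TopologicalSpace Y] (H : AddSubgroup Y) : Prop :=
  ∀ χ : Dual H, ∃ ψ : Dual Y, ∀ h : H, ψ (h : Y) = χ h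

/-- The group `(⊕_ω ℤ/2) ⊕ ℤ/4` with the discrete topology. -/
def X4 : Type := (ℕ →₀ ZMod 2) × ZMod 4

noncomputable instance : AddCommGroup X4 :=
  inferInstanceAs (AddCommGroup ((ℕ →₀ ZMod 2) × ZMod 4))

instance : TopologicalSpace X4 := ⊥

instance : DiscreteTopology X4 := ⟨rfl⟩

/-- Constructor for elements of `X4`. -/
def mk (a : ℕ →₀ ZMod 2) (c : ZMod 4) : X4 := (a, c)

theorem mk_add (a b : ℕ →₀ ZMod 2) (c d : ZMod 4) : mk a c + mk b d = mk (a + b) (c + d) := rfl

theorem add_fst (x y : X4) : (x + y).1 = x.1 + y.1 := rfl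

theorem add_snd (x y : X4) : (x + y).2 = x.2 + y.2 := rfl

/-- The subgroup `⊕_ω ℤ/2`. -/
noncomputable def X0 : AddSubgroup X4 where
  carrier := {x | x.2 = 0}
  zero_mem' := rfl
  add_mem' := by
    intro a b ha hb
    show a.2 + b.2 = 0
    rw [show a.2 = 0 from ha, show b.2 = 0 from hb, add_zero]
  neg_mem' := by
    intro a ha
    show - a.2 = 0
    rw [show a.2 = 0 from ha, neg_zero]

/-- The subgroup `(⊕_ω ℤ/2) ⊕ 2ℤ/4`. -/
noncomputable def X1 : AddSubgroup X4 where
  carrier := {x | 2 * x.2 = 0}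
  zero_mem' := mul_zero _
  add_mem' := by
    intro a b ha hb
    show 2 * (a.2 + b.2) = 0
    rw [mul_add, show 2 * a.2 = 0 from ha, show 2 * b.2 = 0 from hb, add_zero]
  neg_mem' := by
    intro a ha
    show 2 * (- a.2) = 0
    rw [mul_neg, show 2 * a.2 = 0 from ha, neg_zero]

theorem mem_X0 (x : X4) : x ∈ X0 ↔ x.2 = 0 := Iff.rfl

theorem mem_X1 (x : X4) : x ∈ X1 ↔ 2 * x.2 = 0 := Iff.rfl

theorem X0_le_X1 : X0 ≤ X1 := by
  intro x hx
  rw [mem_X0] at hx
  rw [mem_X1, hx, mul_zero]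

/-- Generation of a subgroup by the unit vectors and one further element. -/
theorem closure_eq_top (H : AddSubgroup X4) (e : ℕ → H) (x0 : H)
    (he : ∀ i, (e i : X4) = mk (Finsupp.single i 1) 0)
    (h0 : ∀ h : H, ∃ k : ℕ, (h : X4).2 = ((k • x0 : H) : X4).2 ∧ ((k • x0 : H) : X4).1 = 0) :
    AddSubgroup.closure (insert x0 (Set.range e)) = ⊤ := by
  have key : ∀ a : ℕ →₀ ZMod 2, ∃ y ∈ AddSubgroup.closure (insert x0 (Set.range e)),
      (y : X4) = mk a 0 := by
    intro a
    induction a using Finsupp.induction with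
    | zero => exact ⟨0, zero_mem _, rfl⟩
    | single_add i b f _ _ ih =>
      obtain ⟨y, hy, hy'⟩ := ih
      refine ⟨b.val • e i + y, add_mem (nsmul_mem (AddSubgroup.subset_closure
        (Set.mem_insert_of_mem _ (Set.mem_range_self i))) _) hy, ?_⟩
      rw [AddSubgroup.coe_add, AddSubgroup.coe_nsmul, he, hy']
      have h1 : b.val • mk (Finsupp.single i 1) 0 = mk (Finsupp.single i b) 0 := by
        apply Prod.ext
        · show b.val • (Finsupp.single i 1 : ℕ →₀ ZMod 2) = Finsupp.single i b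
          rw [Finsupp.smul_single]
          congr 1
          revert b
          decide
        · show b.val • (0 : ZMod 4) = 0
          exact smul_zero _
      rw [h1, mk_add, add_zero]
  rw [eq_top_iff]
  intro h _
  obtain ⟨k, hk1, hk2⟩ := h0 h
  obtain ⟨y, hy, hy'⟩ := key (h : X4).1
  have : h = y + k • x0 := by
    apply Subtype.ext
    rw [AddSubgroup.coe_add, hy']
    apply Prod.ext
    · rw [add_fst, hk2, add_zero]; rfl
    · rw [add_snd, ← hk1]
      exact (zero_add _).symm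
  rw [this]
  exact add_mem hy (nsmul_mem (AddSubgroup.subset_closure (Set.mem_insert _ _)) _)

/-- Character of a subgroup of `X4` given by a coordinate and an additive map to `ℤ/2`. -/
noncomputable def chr (H : AddSubgroup X4) (q : ZMod 4 → ZMod 2) (hq0 : q 0 = 0)
    (hq : ∀ x y : X4, x ∈ H → y ∈ H → q (x.2 + y.2) = q x.2 + q y.2) (n : ℕ) : Dual H :=
  { toFun := fun x => z2 ((x : X4).1 n + q (x : X4).2)
    map_zero' := by
      show z2 ((0 : ℕ →₀ ZMod 2) n + q 0) = 0
      rw [hq0, Finsupp.zero_apply, add_zero, map_zero]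
    map_add' := by
      intro x y
      show z2 (((x : X4).1 + (y : X4).1) n + q ((x : X4).2 + (y : X4).2)) = _
      rw [hq _ _ x.2 y.2, Finsupp.add_apply, ← map_add]
      congr 1
      abel
    continuous_toFun := continuous_of_discreteTopology }

theorem chr_apply (H : AddSubgroup X4) (q : ZMod 4 → ZMod 2) (hq0 : q 0 = 0)
    (hq : ∀ x y : X4, x ∈ H → y ∈ H → q (x.2 + y.2) = q x.2 + q y.2) (n : ℕ) (x : H) :
    chr H q hq0 hq n x = z2 ((x : X4).1 n + q (x : X4).2) := rfl

theorem finsupp_eventually (a : ℕ →₀ ZMod 2) : ∀ᶠ n in atTop, a n = 0 := by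
  have h1 : (a.support : Set ℕ).Finite := Finset.finite_toSet _
  obtain ⟨N, hN⟩ := h1.bddAbove
  filter_upwards [eventually_gt_atTop N] with n hn
  by_contra h2
  exact absurd (hN (Finset.mem_coe.2 (Finsupp.mem_support_iff.2 h2))) (not_le.2 hn)

theorem sSet_chr (H : AddSubgroup X4) (q : ZMod 4 → ZMod 2) (hq0 : q 0 = 0)
    (hq : ∀ x y : X4, x ∈ H → y ∈ H → q (x.2 + y.2) = q x.2 + q y.2) :
    sSet (chr H q hq0 hq) = {x : H | q (x : X4).2 = 0} := by
  ext x
  show Tendsto (fun n => z2 ((x : X4).1 n + q (x : X4).2)) atTop (𝓝 0) ↔ _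
  rw [tendsto_zero_iff_eventually]
  have h := finsupp_eventually (x : X4).1
  constructor
  · intro h1
    obtain ⟨n, h2, h3⟩ := (h.and h1).exists
    rw [h2, zero_add] at h3
    exact h3
  · intro h1
    filter_upwards [h] with n hn
    rw [hn, zero_add]
    exact h1

theorem isTSeq_chr (H : AddSubgroup X4) (hH : X0 ≤ H) (q : ZMod 4 → ZMod 2) (hq0 : q 0 = 0)
    (hq : ∀ x y : X4, x ∈ H → y ∈ H → q (x.2 + y.2) = q x.2 + q y.2)
    (x0 : H) (hx0 : (x0 : X4).1 = 0) (hx1 : q (x0 : X4).2 = 1)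
    (h0 : ∀ h : H, ∃ k : ℕ, (h : X4).2 = ((k • x0 : H) : X4).2) :
    IsTSeq (chr H q hq0 hq) := by
  have hfst : ∀ k : ℕ, ((k • x0 : H) : X4).1 = 0 := by
    intro k
    induction k with
    | zero => rw [zero_nsmul]; rfl
    | succ k ih =>
      rw [succ_nsmul, AddSubgroup.coe_add, add_fst, ih, hx0, add_zero]
  refine isTSeq_dual (fun i => (⟨mk (Finsupp.single i 1) 0, hH rfl⟩ : H)) x0 ?_ _ ?_ ?_
  · apply closure_eq_top H _ x0 (fun i => rfl)
    intro h
    obtain ⟨k, hk⟩ := h0 h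
    exact ⟨k, hk, hfst k⟩
  · intro n i
    rw [chr_apply]
    show z2 ((Finsupp.single i 1 : ℕ →₀ ZMod 2) n + q 0) = _
    rw [hq0, add_zero, Finsupp.single_apply]
    split_ifs
    · exact z2_one
    · exact map_zero _
  · intro n
    rw [chr_apply, hx0, hx1, Finsupp.zero_apply, zero_add, z2_one]

/-- The map `0 ↦ 0`, all other elements to `1`. -/
def q1 (c : ZMod 4) : ZMod 2 := if c = 0 then 0 else 1

/-- Reduction modulo `2`. -/
def q2 (c : ZMod 4) : ZMod 2 := (c.val : ZMod 2)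

theorem q1_zero : q1 0 = 0 := rfl

theorem q2_zero : q2 0 = 0 := rfl

theorem tchar01 : TCharacterized (X0.addSubgroupOf X1) := by
  have hq : ∀ x y : X4, x ∈ X1 → y ∈ X1 → q1 (x.2 + y.2) = q1 x.2 + q1 y.2 := by
    intro x y hx hy
    rw [mem_X1] at hx hy
    revert hx hy
    generalize x.2 = c
    generalize y.2 = d
    revert c d
    decide
  refine ⟨chr X1 q1 q1_zero hq, ?_, ?_⟩
  · refine isTSeq_chr X1 X0_le_X1 q1 q1_zero hq ⟨mk 0 2, ?_⟩ rfl ?_ ?_
    · show 2 * (2 : ZMod 4) = 0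
      decide
    · show q1 2 = 1
      decide
    · intro h
      have h1 := h.2
      rw [mem_X1] at h1
      have h2 : ∀ c : ZMod 4, 2 * c = 0 → c = 0 ∨ c = 2 := by decide
      rcases h2 _ h1 with h3 | h3
      · refine ⟨0, ?_⟩
        rw [zero_nsmul, h3]; rfl
      · refine ⟨1, ?_⟩
        rw [one_nsmul, h3]; rfl
  · rw [sSet_chr]
    ext x
    show (x : X4).2 = 0 ↔ q1 (x : X4).2 = 0
    generalize (x : X4).2 = c
    revert c
    decide

theorem tchar12 : TCharacterized (X1.addSubgroupOf ⊤) := by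
  have hq : ∀ x y : X4, x ∈ (⊤ : AddSubgroup X4) → y ∈ (⊤ : AddSubgroup X4) →
      q2 (x.2 + y.2) = q2 x.2 + q2 y.2 := by
    intro x y _ _
    generalize x.2 = c
    generalize y.2 = d
    revert c d
    decide
  refine ⟨chr ⊤ q2 q2_zero hq, ?_, ?_⟩
  · refine isTSeq_chr ⊤ le_top q2 q2_zero hq ⟨mk 0 1, trivial⟩ rfl ?_ ?_
    · show q2 1 = 1
      decide
    · intro h
      refine ⟨(h : X4).2.val, ?_⟩
      rw [AddSubgroup.coe_nsmul]
      show (h : X4).2 = (h : X4).2.val • (1 : ZMod 4)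
      generalize (h : X4).2 = c
      revert c
      decide
  · rw [sSet_chr]
    ext x
    show 2 * (x : X4).2 = 0 ↔ q2 (x : X4).2 = 0
    generalize (x : X4).2 = c
    revert c
    decide

/-- The element `(0, 1)`. -/
noncomputable def g1 : (⊤ : AddSubgroup X4) := ⟨mk 0 1, trivial⟩

theorem nsmul_g1 (k : ℕ) : ((k • g1 : (⊤ : AddSubgroup X4)) : X4) = mk 0 (k : ZMod 4) := by
  rw [AddSubgroup.coe_nsmul]
  apply Prod.ext
  · show k • (0 : ℕ →₀ ZMod 2) = 0
    exact smul_zero _
  · show k • (1 : ZMod 4) = k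
    rw [nsmul_one]

theorem four_g1 : 4 • g1 = 0 := by
  apply Subtype.ext
  rw [nsmul_g1]
  rfl

theorem two_mem (x : (⊤ : AddSubgroup X4)) : 2 • x = (2 * (x : X4).2.val) • g1 := by
  apply Subtype.ext
  rw [nsmul_g1, AddSubgroup.coe_nsmul]
  apply Prod.ext
  · show 2 • (x : X4).1 = 0
    ext i
    rw [Finsupp.smul_apply, Finsupp.zero_apply]
    generalize (x : X4).1 i = z
    revert z
    decide
  · show 2 • (x : X4).2 = ((2 * (x : X4).2.val : ℕ) : ZMod 4)
    generalize (x : X4).2 = c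
    revert c
    decide

theorem not_tchar02 : ¬ TCharacterized (X0.addSubgroupOf ⊤) := by
  rintro ⟨w, hw, hH⟩
  have hfin : {g : Dual (⊤ : AddSubgroup X4) |
      ∃ w' : Dual (⊤ : AddSubgroup X4), g = 2 • w'}.Finite := by
    have h1 : {u : AddCircle (1 : ℝ) | 4 • u = 0}.Finite :=
      AddCircle.finite_torsion (1 : ℝ) (by norm_num)
    refine Set.Finite.of_finite_image (f := fun g : Dual (⊤ : AddSubgroup X4) => g g1)
      (h1.subset ?_) ?_
    · rintro _ ⟨g, _, rfl⟩
      show 4 • g g1 = 0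
      rw [← map_nsmul, four_g1, map_zero]
    · rintro g ⟨w1, rfl⟩ g' ⟨w2, rfl⟩ h
      have h' : (2 • w1 : Dual (⊤ : AddSubgroup X4)) g1 = (2 • w2 : Dual _) g1 := h
      rw [nsmul_apply, nsmul_apply] at h'
      ext x
      rw [nsmul_apply, nsmul_apply, ← map_nsmul, ← map_nsmul]
      rw [two_mem, mul_nsmul, map_nsmul, map_nsmul, map_nsmul, map_nsmul, h']
  have h2 := hw.eventually_nsmul_eq_zero 2 _ hfin (fun n => ⟨w n, rfl⟩)
  have h3 : 2 • g1 ∈ ((X0.addSubgroupOf ⊤ : AddSubgroup _) : Set (⊤ : AddSubgroup X4)) := by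
    rw [hH]
    apply tendsto_nhds_of_eventually_eq
    filter_upwards [h2] with n hn
    have : (2 • w n : Dual (⊤ : AddSubgroup X4)) g1 = 0 := by rw [hn]; rfl
    rw [nsmul_apply] at this
    rw [map_nsmul, this]
  have h4 : ((2 • g1 : (⊤ : AddSubgroup X4)) : X4).2 = 0 := h3
  rw [nsmul_g1] at h4
  exact absurd h4 (by decide)

theorem duallyEmbedded : DuallyEmbedded (X1.addSubgroupOf ⊤) := by
  intro χ
  -- elements of `X1` inside `⊤`
  let i1 : ∀ x : X4, x ∈ X1 → X1.addSubgroupOf ⊤ := fun x hx => ⟨⟨x, trivial⟩, hx⟩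
  have h22 : mk 0 2 ∈ X1 := by
    show 2 * (2 : ZMod 4) = 0
    decide
  obtain ⟨s, hs⟩ : ∃ s : AddCircle (1 : ℝ), 2 • s = χ (i1 (mk 0 2) h22) := by
    refine ⟨DivisibleBy.div (χ (i1 (mk 0 2) h22)) (2 : ℤ), ?_⟩
    have := DivisibleBy.div_cancel (χ (i1 (mk 0 2) h22)) (two_ne_zero : (2 : ℤ) ≠ 0)
    rw [← natCast_zsmul]
    exact this
  have hs4 : 4 • s = 0 := by
    have : (4 : ℕ) • s = 2 • (2 • s) := by rw [← mul_nsmul]
    rw [this, hs, ← map_nsmul]
    have h : 2 • i1 (mk 0 2) h22 = 0 := by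
      apply Subtype.ext
      apply Subtype.ext
      show 2 • mk 0 2 = 0
      apply Prod.ext
      · show 2 • (0 : ℕ →₀ ZMod 2) = 0
        exact smul_zero _
      · show 2 • (2 : ZMod 4) = 0
        decide
    rw [h, map_zero]
  let z4 : ZMod 4 →+ AddCircle (1 : ℝ) :=
    ZMod.lift 4 ⟨(zmultiplesHom (AddCircle (1 : ℝ))) s, by
      have : ((4 : ℕ) : ℤ) • s = 0 := by rw [natCast_zsmul]; exact hs4
      simpa [zmultiplesHom_apply] using this⟩
  have z4_two : z4 2 = 2 • s := by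
    have : z4 ((2 : ℤ) : ZMod 4) = 2 • s := by
      rw [ZMod.lift_coe]
      simp only [zmultiplesHom_apply]
      rw [← natCast_zsmul]; rfl
    simpa using this
  let ψ : Dual (⊤ : AddSubgroup X4) :=
    { toFun := fun x => χ (i1 (mk (x : X4).1 0) (mul_zero _)) + z4 (x : X4).2
      map_zero' := by
        have h1 : i1 (mk ((0 : (⊤ : AddSubgroup X4)) : X4).1 0) (mul_zero _) = 0 := rfl
        have h2 : z4 ((0 : (⊤ : AddSubgroup X4)) : X4).2 = 0 := map_zero z4
        rw [h1, h2, map_zero, add_zero]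
      map_add' := by
        intro x y
        have h1 : i1 (mk ((x + y : (⊤ : AddSubgroup X4)) : X4).1 0) (mul_zero _) =
          i1 (mk (x : X4).1 0) (mul_zero _) + i1 (mk (y : X4).1 0) (mul_zero _) := by
          apply Subtype.ext
          apply Subtype.ext
          show mk _ 0 = mk _ 0 + mk _ 0
          rw [mk_add, add_zero]; rfl
        have h2 : z4 ((x + y : (⊤ : AddSubgroup X4)) : X4).2 = z4 (x : X4).2 + z4 (y : X4).2 :=
          map_add z4 _ _
        rw [h1, h2, map_add]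
        abel
      continuous_toFun := continuous_of_discreteTopology }
  refine ⟨ψ, ?_⟩
  rintro ⟨⟨x, hx'⟩, hx⟩
  show χ (i1 (mk x.1 0) (mul_zero _)) + z4 x.2 = χ (i1 x hx)
  have hx2 : 2 * x.2 = 0 := hx
  have h2 : ∀ c : ZMod 4, 2 * c = 0 → c = 0 ∨ c = 2 := by decide
  rcases h2 _ hx2 with h3 | h3
  · have h4 : i1 (mk x.1 0) (mul_zero _) = i1 x hx := by
      apply Subtype.ext
      apply Subtype.ext
      show mk x.1 0 = x
      exact Prod.ext rfl h3.symm
    rw [h4, h3, map_zero, add_zero]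
  · have h4 : i1 x hx = i1 (mk x.1 0) (mul_zero _) + i1 (mk 0 2) h22 := by
      apply Subtype.ext
      apply Subtype.ext
      show x = mk x.1 0 + mk 0 2
      rw [mk_add, add_zero, zero_add]
      exact Prod.ext rfl h3
    rw [h3, z4_two, hs, h4, map_add]

/-- **Q1 of MP_24a371_gt, negated form.** There are a (discrete) topological abelian group `X` and
subgroups `X0 ≤ X1 ≤ X2` such that `X1` is dually embedded in `X2`, `X0` is `T`-characterized in
`X1`, `X1` is `T`-characterized in `X2`, but `X0` is not `T`-characterized in `X2`. -/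
theorem result : ∃ (X : Type) (_ : AddCommGroup X) (_ : TopologicalSpace X)
    (X0 X1 X2 : AddSubgroup X), IsTopologicalAddGroup X ∧ T2Space X ∧ X0 ≤ X1 ∧ X1 ≤ X2 ∧
      DuallyEmbedded (X1.addSubgroupOf X2) ∧ TCharacterized (X0.addSubgroupOf X1) ∧
      TCharacterized (X1.addSubgroupOf X2) ∧ ¬ TCharacterized (X0.addSubgroupOf X2) :=
  ⟨X4, inferInstance, inferInstance, X0, X1, ⊤, inferInstance, inferInstance, X0_le_X1, le_top,
    duallyEmbedded, tchar01, tchar12, not_tchar02⟩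

end Pool.Agent.Results.MP_24a371_gt.NotTransitive
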